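import Pool.Agent.helper52.HY.Spec

set_option autoImplicit false

open Complex Metric Set Filter Topology MeasureTheory
open Pool.Agent.helper98.ILF Pool.Agent.helper16.Multibrot

noncomputable section

namespace HY

theorem HYC_iter {n : ℕ} {c : ℂ} {S : Set ℂ} (hinv : ∀ z ∈ S, z ^ n + c ∈ S) :
    ∀ z ∈ S, ∀ k : ℕ, (fun z : ℂ => z ^ n + c)^[k] z ∈ S := by
  intro z hz k
  induction k with
  | zero => exact hz
  | succ k ih =>
    rw [Function.iterate_succ_apply']
    exact hinv _ ih

theorem HYC (hGRO : GRO_stmt) : HYC_stmt := by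
  intro n c S hn hc hS h0 hinv hm
  by_contra hcl
  have hit := HYC_iter hinv
  have hfill : S ⊆ filled n c := by
    intro z hz
    by_contra hzf
    obtain ⟨B, hB⟩ := hS.isBounded.exists_norm_le
    obtain ⟨k, hk⟩ := exists_of_notMem_filled hn hzf B
    exact absurd (hB _ (hit z hz k)) (not_le.2 (hk k le_rfl))
  obtain ⟨ε, hε, hball⟩ := Metric.isOpen_iff.1 hS.isClosed.isOpen_compl 0 h0
  obtain ⟨N, hN⟩ := hGRO n hn c hc hcl ε hε 1
  obtain ⟨z, hz, hd⟩ := hm (max N 1) (le_max_right _ _)
  have h1 := hN (max N 1) (le_max_left _ _) z (hfill hz) (by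
    intro i _
    by_contra hlt
    rw [not_le] at hlt
    exact hball (mem_ball_zero_iff.2 hlt) (hit z hz i))
  exact absurd h1 (not_lt.2 hd)

end HY
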